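import Pool.Agent.H482R3.EA.Stm

set_option autoImplicit false

/-! Project EA, task P1: validity is preserved. -/

namespace Pool.Agent.H142R2.EA.P1

open Pool.Agent.H482R3.EA Pool.Agent.H482R3.EA.NF

theorem near_inD {S : Sys} {q : S.P} {s : St S} (h : Near S q s) : ∃ m, InD S m s ∧ S.I q m := by
  cases s with
  | none => exact h.elim
  | ln m => exact ⟨m, rfl, h⟩
  | pt r =>
    obtain ⟨m, h1, h2⟩ := h
    exact ⟨m, h1, h2⟩

theorem inD_near {S : Sys} {q : S.P} {m : S.Ln} {s : St S} (h : InD S m s) (hq : S.I q m) :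
    Near S q s := by
  cases s with
  | none => exact h.elim
  | ln k =>
    have h' : m = k := h
    subst h'
    exact hq
  | pt r => exact ⟨m, h, hq⟩

/-- validity of the action on lines of the state, from the immediate subterm -/
theorem actV {S : Sys} (h : NF S) (hv : Valid h)
    (sub : ∀ h', (∃ p n, h = .pt h' p n) ∨ (∃ l t, h = .ln h' l t) → Valid h' →
      ∀ (l : S.Ln) (y : S.L l), ¬ InD S l (st h') → Valid (up h' l y))
    (m : S.Ln) (y : S.L m) (hm : InD S m (st h)) : Valid (act h m y) := by
  cases h with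
  | one => exact hm.elim
  | pt h' p n =>
    have hm' : S.I p m := hm
    obtain ⟨hv1, hn, hnear⟩ := hv
    have e : act (.pt h' p n) m y = up h' m (S.x m p ^ n * y) := by
      unfold act
      exact if_pos hm'
    rw [e]
    exact sub h' (Or.inl ⟨p, n, rfl⟩) hv1 m _ fun hd => hnear (inD_near hd hm')
  | ln h' l t =>
    have hm' : m = l := hm
    subst hm'
    obtain ⟨hv1, hd, -, -⟩ := hv
    have e : act (.ln h' m t) m y = up h' m (t * y) := by
      unfold act
      exact dif_pos rfl
    rw [e]
    exact sub h' (Or.inr ⟨m, t, rfl⟩) hv1 m _ hd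

theorem attV {S : Sys} (h : NF S) (hv : Valid h) (l : S.Ln) (y : S.L l)
    (hd : ¬ InD S l (st h)) (hno : ∀ q, S.I q l → ¬ Near S q (st h)) : Valid (att h l y) := by
  unfold att
  by_cases h1 : y = 1
  · rw [if_pos h1]; exact hv
  rw [if_neg h1]
  by_cases H : ∃ (s : S.P) (c : ℤ), S.I s l ∧ y = S.x l s ^ c
  · rw [dif_pos H]
    have hs := H.choose_spec.choose_spec
    refine ⟨hv, ?_, hno _ hs.1⟩
    intro hc
    apply h1
    rw [hs.2, hc, zpow_zero]
  · rw [dif_neg H]
    refine ⟨hv, hd, fun q hq hn => absurd hn (hno q hq), fun _ r a hr hy => H ⟨r, a, hr, hy⟩⟩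

theorem attMV {S : Sys} (hR : S_REP) (hU : S_UNI) (f : ℤ → NF S) (q : S.P) (l : S.Ln) (y : S.L l)
    (hq : S.I q l) (hf : ∀ a, Valid (f a)) (hd : ∀ a, ¬ InD S l (st (f a)))
    (hnear : ∀ a, Near S q (st (f a))) : Valid (attM f q l y) := by
  obtain ⟨-, -, -, hR4, hR5⟩ := hR S l q hq y
  obtain ⟨-, -, -, hR4', -⟩ := hR S l q hq (rep S l q y)
  unfold attM
  simp only []
  by_cases h1 : rep S l q y = 1
  · rw [if_pos h1]; exact hf _
  rw [if_neg h1]
  have hnp : ∀ a : ℤ, rep S l q y ≠ S.x l q ^ a := by
    intro a ha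
    apply h1
    rw [← hR5]
    exact hR4'.2 ⟨a, ha⟩
  by_cases H : ∃ (s : S.P) (b c : ℤ), S.I s l ∧ s ≠ q ∧
      rep S l q y = S.x l q ^ b * S.x l s ^ c
  · rw [dif_pos H]
    have hs := H.choose_spec.choose_spec.choose_spec
    refine ⟨hf _, ?_, ?_⟩
    · intro hc
      rw [hc, zpow_zero, mul_one] at hs
      exact hnp _ hs.2.2
    · intro hn
      exact hs.2.1 (hU S _ l _ _ (hd _) hs.1 hn hq (hnear _))
  · rw [dif_neg H]
    refine ⟨hf _, hd _, ?_, fun hno => absurd (hnear _) (hno q hq)⟩
    intro q' hq' hn'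
    have e : q' = q := hU S _ l _ _ (hd _) hq' hn' hq (hnear _)
    subst e
    refine ⟨hR5, ?_⟩
    intro r a b hr ht
    by_cases hrq : r = q'
    · subst hrq
      rw [← zpow_add] at ht
      exact hnp _ ht
    · exact H ⟨r, a, b, hr, hrq, ht⟩

theorem upV (hR : S_REP) (hU : S_UNI) (hN : S_UPN) (hM : S_UPM) (hL : S_LS) {S : Sys}
    (h : NF S) : Valid h → ∀ (l : S.Ln) (y : S.L l), ¬ InD S l (st h) → Valid (up h l y) := by
  induction h with
  | one =>
    intro hv l y hd
    rw [hN S .one l y (fun q _ hn => hn)]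
    exact attV _ hv l y hd (fun q _ hn => hn)
  | pt h' p n ih =>
    intro hv l y hd
    by_cases hme : ∃ q, S.I q l ∧ Near S q (st (NF.pt h' p n))
    · obtain ⟨q, hq, hn⟩ := hme
      obtain ⟨m, hm, hqm⟩ := near_inD hn
      rw [hM S _ l y q m hd hq hn hm hqm]
      have hlm : l ≠ m := by rintro rfl; exact hd hm
      have hst : st (NF.pt h' p n) ≠ .pt q := by
        intro e
        apply hd
        rw [e]
        exact hq
      have hLS := fun a => hL S _ m q a hv hm hqm hst
      refine attMV hR hU _ q l y hq ?_ ?_ ?_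
      · intro a
        refine actV _ hv ?_ m _ hm
        rintro h'' (⟨p', n', he⟩ | ⟨l', t', he⟩)
        · injection he with e1 e2 e3
          subst e1
          exact ih
        · exact absurd he (by simp)
      · intro a hd'
        obtain ⟨h1, h2⟩ := hLS a
        cases hs : st (act (NF.pt h' p n) m (S.x m q ^ a)) with
        | none => rw [hs] at h1; exact h1
        | ln k =>
          rw [hs] at h1 hd'
          have e1 : m = k := h1
          have e2 : l = k := hd'
          exact hlm (e2.trans e1.symm)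
        | pt r =>
          rw [hs] at h1 h2 hd'
          have e1 : S.I r m := h1
          have e2 : S.I r l := hd'
          exact h2 (congrArg _ (S.G1 l m r q hlm e2 hq e1 hqm))
      · intro a
        exact inD_near (hLS a).1 hqm
    · push Not at hme
      rw [hN S _ l y hme]
      exact attV _ hv l y hd hme
  | ln h' l' t ih =>
    intro hv l y hd
    by_cases hme : ∃ q, S.I q l ∧ Near S q (st (NF.ln h' l' t))
    · obtain ⟨q, hq, hn⟩ := hme
      obtain ⟨m, hm, hqm⟩ := near_inD hn
      rw [hM S _ l y q m hd hq hn hm hqm]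
      have hlm : l ≠ m := by rintro rfl; exact hd hm
      have hst : st (NF.ln h' l' t) ≠ .pt q := by
        intro e
        apply hd
        rw [e]
        exact hq
      have hLS := fun a => hL S _ m q a hv hm hqm hst
      refine attMV hR hU _ q l y hq ?_ ?_ ?_
      · intro a
        refine actV _ hv ?_ m _ hm
        rintro h'' (⟨p', n', he⟩ | ⟨l', t', he⟩)
        · exact absurd he (by simp)
        · have e1 : h' = h'' := by
            injection he
          subst e1
          exact ih
      · intro a hd'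
        obtain ⟨h1, h2⟩ := hLS a
        cases hs : st (act (NF.ln h' l' t) m (S.x m q ^ a)) with
        | none => rw [hs] at h1; exact h1
        | ln k =>
          rw [hs] at h1 hd'
          have e1 : m = k := h1
          have e2 : l = k := hd'
          exact hlm (e2.trans e1.symm)
        | pt r =>
          rw [hs] at h1 h2 hd'
          have e1 : S.I r m := h1
          have e2 : S.I r l := hd'
          exact h2 (congrArg _ (S.G1 l m r q hlm e2 hq e1 hqm))
      · intro a
        exact inD_near (hLS a).1 hqm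
    · push Not at hme
      rw [hN S _ l y hme]
      exact attV _ hv l y hd hme

theorem t_P1 (hR : S_REP) (hU : S_UNI) (hN : S_UPN) (hM : S_UPM) (hAN : S_ACTN) (hL : S_LS) :
    S_P1 := by
  intro S h l y hv
  by_cases hd : InD S l (st h)
  · exact actV h hv (fun h' _ hv' => upV hR hU hN hM hL h' hv') l y hd
  · rw [hAN S h l y hd]
    exact upV hR hU hN hM hL h hv l y hd

end Pool.Agent.H142R2.EA.P1
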